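import Pool.Agent.W93.AU14
import Pool.Agent.Y885.GV
import Pool.Agent.Y885.TO

set_option autoImplicit false

/-! Automatic sets: all the multiples of a random element have a thin large spectrum. -/

namespace Pool.Agent.H491R3.AM
open Finset
open Pool.Agent.H807R2.Dav
open Pool.Agent.W93.RD
open Pool.Agent.W93.DG
open Pool.Agent.W93.AU
open Pool.Agent.Y885 (Thin Dense FewFar Far TLaw Spec thin_of)

variable {σ : Type}

/-- the characteristic function is small at the frequencies with many good positions -/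
lemma char_bound_c (B : ℕ) (hB : 2 ≤ B) (δ : σ → ℕ → σ) (F : σ → Prop) (s0 : σ) (Rich : σ → Prop) (κ : ℕ) (C ρ : ℝ) (k : ℕ)
    (hG : Gro B δ F s0 Rich κ C ρ k) (hρ : 1 < ρ) (hR : ∀ s, Rich s → ∃ u v, u < v ∧ v < B ∧ δ s u = s ∧ δ s v = s)
    (c : ℝ) (hc0 : 0 < c) (hc1 : c ≤ 1 / 4) (V : ℕ) : ∃ D K₀ : ℕ, ∀ K : ℕ, K₀ ≤ K → ∀ m, κ ≤ m → m ≤ K → ∀ θ : ℝ,
    D * (Nat.log B K + 1) ≤ gc B (Gd B c) κ m θ →
    ‖Tc B δ F m s0 θ‖ ≤ 1 / (K : ℝ) ^ V * Ac B δ F m s0 := by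
  have hC1 := hG.C1
  have hC0 : 0 < C := by linarith
  obtain ⟨q, hq⟩ : ∃ q, q = 1 - c / C := ⟨_, rfl⟩
  have hcC : c / C ≤ 1 / 4 := (div_le_self hc0.le hC1).trans hc1
  have hcC0 : 0 < c / C := by positivity
  have hq0 : 0 < q := by rw [hq]; linarith
  have hq1 : q < 1 := by rw [hq]; linarith
  obtain ⟨l, hl⟩ : ∃ l, l = max q (1 / ρ) := ⟨_, rfl⟩
  have hρ0 : 0 < ρ := by linarith
  have hl1 : l < 1 := by
    rw [hl]
    apply max_lt hq1
    rw [div_lt_one hρ0]; exact hρ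
  have hlq : q ≤ l := by rw [hl]; exact le_max_left _ _
  have hlρ : 1 / ρ ≤ l := by rw [hl]; exact le_max_right _ _
  have hl0 : 0 < l := lt_of_lt_of_le hq0 hlq
  have hB0 : (0 : ℝ) < B := by exact_mod_cast (by omega : 0 < B)
  obtain ⟨D', hD'⟩ := exists_pow_lt_of_lt_one (show 0 < (1 / (B : ℝ)) ^ (V + (k + 1)) by positivity) hl1
  obtain ⟨k1, hk1⟩ := poly_le (C ^ 2) (by positivity) k
  refine ⟨2 * D', k1 + 1, fun K hK m hκm hm θ ht => ?_⟩
  obtain ⟨Lg, hLg⟩ : ∃ Lg, Lg = Nat.log B K + 1 := ⟨_, rfl⟩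
  rw [← hLg] at ht
  obtain ⟨r, hr⟩ : ∃ r, r = D' * Lg := ⟨_, rfl⟩
  have hgc2 : 2 * r ≤ gc B (Gd B c) κ m θ := by
    rw [hr, ← mul_assoc]
    exact ht
  have hA0 := Ac_nonneg B δ F m s0
  have h1 := Tc_le B δ F Rich (Gd B c) κ c q hc0.le (by linarith) hq0 hq1.le hR (fun θ h => h) m s0 θ r
  have h2 := Uc_le B δ F Rich (Gd B c) κ c q C hc0.le (by linarith) hq0 hC0 (by rw [hq]) hR hG.step m s0 θ
  have h3 := Nc_le B δ F Rich (Gd B c) κ ρ hρ.le m s0 θ r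
  have hN0 := Nc_nonneg B δ F Rich (Gd B c) κ m s0 θ r
  have h4 : Zc B δ F Rich ρ m s0 ≤ C ^ 2 * ((m : ℝ) + 1) ^ k * Ac B δ F m s0 := by
    refine (hG.zc m).trans ?_
    have e1 := hG.low m hκm
    calc C * ((m : ℝ) + 1) ^ k * ρ ^ m ≤ C * ((m : ℝ) + 1) ^ k * (C * Ac B δ F m s0) := mul_le_mul_of_nonneg_left e1 (by positivity)
      _ = _ := by ring
  have h5 : ρ ^ r * Nc B δ F Rich (Gd B c) κ m s0 θ r ≤ C ^ 2 * ((m : ℝ) + 1) ^ k * Ac B δ F m s0 := by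
    have e1 : ρ ^ (2 * r) * Nc B δ F Rich (Gd B c) κ m s0 θ r ≤ ρ ^ r * (C ^ 2 * ((m : ℝ) + 1) ^ k * Ac B δ F m s0) := by
      refine le_trans ?_ (h3.trans (mul_le_mul_of_nonneg_left h4 (by positivity)))
      exact mul_le_mul_of_nonneg_right (pow_le_pow_right₀ hρ.le hgc2) hN0
    rw [two_mul, pow_add, mul_assoc] at e1
    exact le_of_mul_le_mul_left e1 (by positivity)
  have h6 : Nc B δ F Rich (Gd B c) κ m s0 θ r ≤ l ^ r * (C ^ 2 * ((m : ℝ) + 1) ^ k * Ac B δ F m s0) := by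
    have e1 : Nc B δ F Rich (Gd B c) κ m s0 θ r ≤ (1 / ρ) ^ r * (C ^ 2 * ((m : ℝ) + 1) ^ k * Ac B δ F m s0) := by
      rw [one_div, inv_pow, inv_mul_eq_div, le_div_iff₀ (by positivity), mul_comm]
      exact h5
    refine e1.trans (mul_le_mul_of_nonneg_right (pow_le_pow_left₀ (by positivity) hlρ r) (by positivity))
  have h7 : q ^ r * Uc B δ F Rich (Gd B c) κ c q m s0 θ ≤ l ^ r * Ac B δ F m s0 :=
    mul_le_mul (pow_le_pow_left₀ hq0.le hlq r) h2 (Uc_nonneg B δ F Rich (Gd B c) κ c q (by linarith) hq0 hR m s0 θ) (by positivity)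
  have h8 : ‖Tc B δ F m s0 θ‖ ≤ l ^ r * (1 + C ^ 2 * ((m : ℝ) + 1) ^ k) * Ac B δ F m s0 := by
    have : l ^ r * (1 + C ^ 2 * ((m : ℝ) + 1) ^ k) * Ac B δ F m s0 = l ^ r * Ac B δ F m s0 + l ^ r * (C ^ 2 * ((m : ℝ) + 1) ^ k * Ac B δ F m s0) := by ring
    linarith
  refine h8.trans (mul_le_mul_of_nonneg_right ?_ hA0)
  have hK1 : 1 ≤ K := by omega
  have hKr : (1 : ℝ) ≤ K := by exact_mod_cast hK1
  have h9 : l ^ r ≤ 1 / (K : ℝ) ^ (V + (k + 1)) := by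
    rw [hr, hLg]
    exact pow_log_le B hB l hl0.le _ D' hD'.le K hK1
  have h10 : 1 + C ^ 2 * ((m : ℝ) + 1) ^ k ≤ (K : ℝ) ^ (k + 1) := by
    refine le_trans ?_ (hk1 K (by omega))
    have e1 : (m : ℝ) ≤ K := by exact_mod_cast hm
    have e2 : ((m : ℝ) + 1) ^ k ≤ ((K : ℝ) + 1) ^ k := pow_le_pow_left₀ (by positivity) (by linarith) k
    have e3 : C ^ 2 * ((m : ℝ) + 1) ^ k ≤ C ^ 2 * ((K : ℝ) + 1) ^ k := mul_le_mul_of_nonneg_left e2 (by positivity)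
    linarith
  calc l ^ r * (1 + C ^ 2 * ((m : ℝ) + 1) ^ k) ≤ 1 / (K : ℝ) ^ (V + (k + 1)) * (K : ℝ) ^ (k + 1) :=
        mul_le_mul h9 h10 (by positivity) (by positivity)
    _ = 1 / (K : ℝ) ^ V := by
        rw [pow_add]
        field_simp

/-- far from the integers for `B!` times the frequency implies good -/
lemma gd_far (B : ℕ) (hB : 2 ≤ B) (κ' : ℝ) (hκ' : 0 ≤ κ') (y x : ℝ) (hyx : |y| = |(B.factorial : ℝ) * x|)
    (h : κ' < |y - round y|) : Gd B (4 * (κ' / (B.factorial : ℝ)) ^ 2) x := by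
  have hF0 : (0 : ℝ) < (B.factorial : ℝ) := by exact_mod_cast B.factorial_pos
  apply gd_dist B _ _ (by positivity)
  intro d hd0 hdB n
  obtain ⟨e, he⟩ : d ∣ B.factorial := Nat.dvd_factorial hd0 hdB.le
  have he0 : 0 < e := by
    rcases Nat.eq_zero_or_pos e with h0 | h0
    · rw [h0, mul_zero] at he
      exact absurd he B.factorial_ne_zero
    · exact h0
  have heB : e ≤ B.factorial := by rw [he]; exact Nat.le_mul_of_pos_left e hd0
  have her : (0 : ℝ) < e := by exact_mod_cast he0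
  have e1 : (B.factorial : ℝ) = d * e := by exact_mod_cast he
  have e2 : (e : ℝ) * ((d : ℝ) * x - n) = (B.factorial : ℝ) * x - ((e * n : ℤ) : ℝ) := by
    rw [e1]; push_cast; ring
  have h2 : κ' < |(e : ℝ) * ((d : ℝ) * x - n)| := by
    rw [e2]
    rcases abs_eq_abs.1 hyx with h0 | h0
    · rw [← h0]
      exact lt_of_lt_of_le h (round_le y _)
    · have e3 : (B.factorial : ℝ) * x = -y := by rw [h0]; ring
      rw [e3]
      have e4 : |-y - ((e * n : ℤ) : ℝ)| = |y - ((-(e * n) : ℤ) : ℝ)| := by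
        rw [← abs_neg]
        congr 1
        push_cast
        ring
      rw [e4]
      exact lt_of_lt_of_le h (round_le y _)
  rw [abs_mul, abs_of_pos her] at h2
  have h3 : (e : ℝ) * |(d : ℝ) * x - n| ≤ (B.factorial : ℝ) * |(d : ℝ) * x - n| :=
    mul_le_mul_of_nonneg_right (by exact_mod_cast heB) (abs_nonneg _)
  rw [div_le_iff₀ hF0]
  linarith

end Pool.Agent.H491R3.AM
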