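import Pool.Agent.H491R3.AM1

set_option autoImplicit false

/-! Automatic sets: all the multiples of a random element have a thin large spectrum (the law). -/

namespace Pool.Agent.H491R3.AM
open Finset
open Pool.Agent.H807R2.Dav
open Pool.Agent.W93.RD
open Pool.Agent.W93.DG
open Pool.Agent.W93.AU
open Pool.Agent.Y885 (Thin Dense FewFar Far TLaw Spec thin_of)

variable {σ : Type}

open Classical in
/-- the number of the good positions -/
lemma good_count (B : ℕ) (g : ℝ → Prop) (κ₀ m : ℕ) (θ : ℝ) :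
    ((range m).filter (fun j : ℕ => g ((B : ℝ) ^ j * θ))).card ≤ gc B g κ₀ m θ + κ₀ := by
  rw [gc_eq]
  rw [card_filter]
  have h1 : ∑ j ∈ range m, (if g ((B : ℝ) ^ j * θ) then 1 else 0) ≤
      ∑ j ∈ range m, ((if κ₀ + j + 1 ≤ m ∧ g ((B : ℝ) ^ j * θ) then 1 else 0) + (if m < κ₀ + j + 1 then 1 else 0)) := by
    apply sum_le_sum
    intro j _
    by_cases h : κ₀ + j + 1 ≤ m
    · by_cases h' : g ((B : ℝ) ^ j * θ)
      · rw [if_pos h', if_pos ⟨h, h'⟩]; omega
      · rw [if_neg h']; omega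
    · rw [if_pos (show m < κ₀ + j + 1 by omega)]
      split_ifs <;> omega
  refine h1.trans ?_
  rw [sum_add_distrib]
  apply Nat.add_le_add_left
  rw [← card_filter]
  have h2 : (range m).filter (fun j => m < κ₀ + j + 1) ⊆ Ico (m - κ₀) m := by
    intro j hj
    rw [mem_filter, mem_range] at hj
    rw [mem_Ico]
    omega
  refine (card_le_card h2).trans ?_
  rw [Nat.card_Ico]
  omega

/-- the positions are dense -/
lemma dense_ico (E W K m e ℓ : ℕ) (hE : 15 ≤ E) (hK : K = m + e) (hℓ : ℓ ≤ e) (hm : 3 ≤ m) (he : (e : ℝ) ≤ W * Real.log m) :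
    Dense E ((W : ℝ) + 2) K (Ico ℓ (ℓ + m)) := by
  have hEr : (15 : ℝ) ≤ E := by exact_mod_cast hE
  have hE0 : (0 : ℝ) < E := by linarith
  have hE3 : 3 / (E : ℝ) ≤ 1 / 5 := by
    rw [div_le_iff₀ hE0]; linarith
  have hE30 : 0 < 3 / (E : ℝ) := by positivity
  have hm3 : (3 : ℝ) ≤ m := by exact_mod_cast hm
  have hmK : (m : ℝ) ≤ K := by exact_mod_cast (by omega : m ≤ K)
  have hlogm : 1 ≤ Real.log m := by
    rw [Real.le_log_iff_exp_le (by linarith)]
    have := Real.exp_one_lt_d9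
    linarith
  have hlogmK : Real.log m ≤ Real.log K := Real.log_le_log (by linarith) hmK
  have hW : (W : ℝ) * Real.log m ≤ W * Real.log K := mul_le_mul_of_nonneg_left hlogmK (Nat.cast_nonneg _)
  have hc : (e : ℝ) + 2 ≤ ((W : ℝ) + 2) * Real.log K := by
    rw [add_mul]; linarith
  have hKr : (K : ℝ) = m + e := by rw [hK]; push_cast; ring
  have he0 : (0 : ℝ) ≤ e := Nat.cast_nonneg _
  have hℓr : (ℓ : ℝ) ≤ e := by exact_mod_cast hℓ
  refine ⟨fun w hw => ?_, fun w hw => ?_, ?_⟩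
  · have h1 : Ico ℓ (min w (ℓ + m)) ⊆ (Ico ℓ (ℓ + m)).filter (fun i => 0 ≤ i ∧ i < w) := by
      intro i hi
      rw [mem_Ico] at hi
      rw [mem_filter, mem_Ico]
      omega
    have h2 := card_le_card h1
    rw [Nat.card_Ico] at h2
    have h3 : (w : ℝ) ≤ (((Ico ℓ (ℓ + m)).filter (fun i => 0 ≤ i ∧ i < w)).card : ℝ) + e + 1 := by
      have : w ≤ ((Ico ℓ (ℓ + m)).filter (fun i => 0 ≤ i ∧ i < w)).card + e + 1 := by omega
      exact_mod_cast this
    have hw0 : (0 : ℝ) ≤ w := Nat.cast_nonneg _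
    have h4 : (1 / 2 + 3 / (E : ℝ)) * w ≤ 1 * w := mul_le_mul_of_nonneg_right (by linarith) hw0
    linarith
  · have h1 : Ico (max ℓ (K + 1 - w)) (ℓ + m) ⊆ (Ico ℓ (ℓ + m)).filter (fun i => K + 1 - w ≤ i ∧ i < K + 1) := by
      intro i hi
      rw [mem_Ico] at hi
      rw [mem_filter, mem_Ico]
      omega
    have h2 := card_le_card h1
    rw [Nat.card_Ico] at h2
    have h3 : (w : ℝ) ≤ (((Ico ℓ (ℓ + m)).filter (fun i => K + 1 - w ≤ i ∧ i < K + 1)).card : ℝ) + e + 1 := by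
      have : w ≤ ((Ico ℓ (ℓ + m)).filter (fun i => K + 1 - w ≤ i ∧ i < K + 1)).card + e + 1 := by omega
      exact_mod_cast this
    have hw0 : (0 : ℝ) ≤ w := Nat.cast_nonneg _
    have h4 : 3 / (E : ℝ) * w ≤ 1 * w := mul_le_mul_of_nonneg_right (by linarith) hw0
    linarith
  · have h1 : Ico ℓ (ℓ + m) ⊆ (Ico ℓ (ℓ + m)).filter (fun i => 0 ≤ i ∧ i < K + 1) := by
      intro i hi
      rw [mem_Ico] at hi
      rw [mem_filter, mem_Ico]
      omega
    have h2 := card_le_card h1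
    rw [Nat.card_Ico] at h2
    have h3 : (m : ℝ) ≤ (((Ico ℓ (ℓ + m)).filter (fun i => 0 ≤ i ∧ i < K + 1)).card : ℝ) := by
      have : m ≤ ((Ico ℓ (ℓ + m)).filter (fun i => 0 ≤ i ∧ i < K + 1)).card := by omega
      exact_mod_cast this
    have hK0 : (0 : ℝ) ≤ K := Nat.cast_nonneg _
    have h4 : (3 / 5 + 3 / (E : ℝ)) * K ≤ 1 * K := mul_le_mul_of_nonneg_right (by linarith) hK0
    linarith

/-- the uniform distribution on the accepted integers below `B ^ m` -/
noncomputable def Om (B : ℕ) (δ : σ → ℕ → σ) (F : σ → Prop) (s0 : σ) (m : ℕ) : Finset ℕ :=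
  open Classical in (range (B ^ m)).filter fun v => F (run B δ m s0 v)

lemma sum_om (B : ℕ) (hB : 2 ≤ B) (δ : σ → ℕ → σ) (F : σ → Prop) (s0 : σ) (m : ℕ) (hpos : 0 < Ac B δ F m s0) :
    ∑ _v ∈ Om B δ F s0 m, 1 / Ac B δ F m s0 = 1 := by
  classical
  rw [sum_const, nsmul_eq_mul]
  have : ((Om B δ F s0 m).card : ℝ) = Ac B δ F m s0 := by
    rw [Ac_eq B (by omega), ← sum_filter, sum_const, nsmul_eq_mul, mul_one]
    unfold Om
    congr!
  rw [this, mul_one_div, div_self hpos.ne']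

/-- the characteristic function of the multiples of a random accepted integer -/
lemma char_om (B : ℕ) (hB : 2 ≤ B) (δ : σ → ℕ → σ) (F : σ → Prop) (s0 : σ) (m : ℕ) (hpos : 0 < Ac B δ F m s0)
    (h cc κκ : ℤ) (θ : ℝ) :
    ‖∑ v ∈ Om B δ F s0 m, ((1 / Ac B δ F m s0 : ℝ) : ℂ) * ee (((h * (cc + κκ * v) : ℤ) : ℝ) * θ)‖ =
      1 / Ac B δ F m s0 * ‖Tc B δ F m s0 (((h * κκ : ℤ) : ℝ) * θ)‖ := by
  classical
  have h2 : ∑ v ∈ Om B δ F s0 m, ((1 / Ac B δ F m s0 : ℝ) : ℂ) * ee (((h * (cc + κκ * v) : ℤ) : ℝ) * θ) =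
      ((1 / Ac B δ F m s0 : ℝ) : ℂ) * ee (((h * cc : ℤ) : ℝ) * θ) * Tc B δ F m s0 (((h * κκ : ℤ) : ℝ) * θ) := by
    rw [Tc_eq B (by omega), mul_sum]
    unfold Om
    rw [sum_filter]
    apply sum_congr rfl
    intro v _
    split_ifs
    · rw [mul_assoc, ← ee_add]
      congr 2
      push_cast
      ring
    · rw [mul_zero]
  rw [h2, norm_mul, norm_mul, norm_ee, mul_one, Complex.norm_real, Real.norm_eq_abs, abs_of_pos (by positivity)]

set_option maxHeartbeats 1000000 in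
/-- all the multiples of a random element of an automatic set have a thin large spectrum -/
theorem aut_tlaw (B : ℕ) (hB : 2 ≤ B) (δ : σ → ℕ → σ) (F : σ → Prop) (s0 : σ) (Rich : σ → Prop) (κ : ℕ) (C ρ : ℝ) (k : ℕ)
    (hG : Gro B δ F s0 Rich κ C ρ k) (hρ : 1 < ρ) (hR : ∀ s, Rich s → ∃ u v, u < v ∧ v < B ∧ δ s u = s ∧ δ s v = s)
    (κκ : ℤ) (hκκ : κκ ≠ 0) (E : ℕ) (hE : 15 ≤ E) (W V : ℕ) : ∃ c m₀ : ℕ, ∀ m : ℕ, m₀ ≤ m → ∀ e : ℕ, (e : ℝ) ≤ W * Real.log m →
    ∀ h : ℕ, 1 ≤ h → Nat.log B (B.factorial * κκ.natAbs * h) ≤ e → ∀ cc : ℤ,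
    0 < Ac B δ F m s0 →
    TLaw B E c V (m + e) (Om B δ F s0 m) (fun _ => 1 / Ac B δ F m s0) (fun v : ℕ => (h : ℤ) * (cc + κκ * v)) := by
  classical
  obtain ⟨κ', ε', hκ'0, hε0, hκ'eq, hthin⟩ := thin_of B B E hB (by omega) (by omega)
  have hBr : (2 : ℝ) ≤ B := by exact_mod_cast hB
  have hB0 : (0 : ℝ) < B := by linarith
  have hF1 : (1 : ℝ) ≤ (B.factorial : ℝ) := by exact_mod_cast B.factorial_pos
  have hκ'1 : κ' ≤ 1 / 4 := by
    rw [hκ'eq]
    apply one_div_le_one_div_of_le (by norm_num)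
    nlinarith [mul_pos hB0 hB0]
  obtain ⟨cg, hcg⟩ : ∃ cg, cg = 4 * (κ' / (B.factorial : ℝ)) ^ 2 := ⟨_, rfl⟩
  have hcg0 : 0 < cg := by rw [hcg]; positivity
  have hcg1 : cg ≤ 1 / 4 := by
    have e1 : κ' / (B.factorial : ℝ) ≤ 1 / 4 := (div_le_self hκ'0.le hF1).trans hκ'1
    have e2 : 0 ≤ κ' / (B.factorial : ℝ) := by positivity
    rw [hcg]
    nlinarith
  obtain ⟨D, K₁, hchar⟩ := char_bound_c B hB δ F s0 Rich κ C ρ k hG hρ hR cg hcg0 hcg1 V
  obtain ⟨c, K₂, hthin⟩ := hthin ((W : ℝ) + 2) ((3 * D + κ : ℕ) : ℝ)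
  refine ⟨c, K₁ + K₂ + κ + 3, fun m hm e he h hh1 hh2 cc hpos => ?_⟩
  obtain ⟨K, hK⟩ : ∃ K, K = m + e := ⟨_, rfl⟩
  rw [← hK]
  obtain ⟨a, ha⟩ : ∃ a, a = B.factorial * κκ.natAbs * h := ⟨_, rfl⟩
  rw [← ha] at hh2
  have ha0 : 0 < a := by
    rw [ha]
    exact Nat.mul_pos (Nat.mul_pos B.factorial_pos (Int.natAbs_pos.2 hκκ)) hh1
  obtain ⟨ℓ, hℓ⟩ : ∃ ℓ, ℓ = Nat.log B a := ⟨_, rfl⟩
  rw [← hℓ] at hh2
  have hℓ1 : B ^ ℓ ≤ a := by rw [hℓ]; exact Nat.pow_log_le_self B (by omega)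
  have hℓ2 : a < B ^ (ℓ + 1) := by rw [hℓ]; exact Nat.lt_pow_succ_log_self (by omega) a
  have hK3 : (3 : ℝ) ≤ K := by exact_mod_cast (by omega : 3 ≤ K)
  have hlogK : 1 ≤ Real.log K := by
    rw [Real.le_log_iff_exp_le (by linarith)]
    have := Real.exp_one_lt_d9
    linarith
  have hsum := sum_om B hB δ F s0 m hpos
  refine ⟨fun _ _ => by positivity, hsum.le, ?_⟩
  refine hthin K (by omega) (Ico ℓ (ℓ + m)) (dense_ico E W K m e ℓ hE hK hh2 (by omega) he) _ ?_ ?_
  · intro t ht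
    unfold Spec at ht
    rw [mem_filter, mem_range] at ht
    exact ht.1
  · intro T hT
    refine ⟨fun i => a * B ^ (i - ℓ), ?_, T, Subset.refl _, by omega, ?_⟩
    · intro j hj
      rw [mem_Ico] at hj
      have e1 : B ^ ℓ * B ^ (j - ℓ) = B ^ j := by rw [← pow_add]; congr 1; omega
      have e2 : B ^ (ℓ + 1) * B ^ (j - ℓ) = B * B ^ j := by rw [← e1, pow_succ]; ring
      constructor
      · calc B ^ j = B ^ ℓ * B ^ (j - ℓ) := e1.symm
          _ ≤ a * B ^ (j - ℓ) := Nat.mul_le_mul_right _ hℓ1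
          _ ≤ B * (a * B ^ (j - ℓ)) := Nat.le_mul_of_pos_left _ (by omega)
      · calc a * B ^ (j - ℓ) ≤ B ^ (ℓ + 1) * B ^ (j - ℓ) := Nat.mul_le_mul_right _ hℓ2.le
          _ = B * B ^ j := e2
    · intro t ht
      have hts := hT ht
      unfold Spec at hts
      rw [mem_filter, mem_range] at hts
      obtain ⟨_, hts2⟩ := hts
      obtain ⟨θ0, hθ0⟩ : ∃ θ0, θ0 = (t : ℝ) / ((B ^ (K + 1) : ℕ) : ℝ) := ⟨_, rfl⟩
      rw [← hθ0, char_om B hB δ F s0 m hpos] at hts2
      -- the number of the good positions is small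
      have hgc : gc B (Gd B cg) κ m ((((h : ℤ) * κκ : ℤ) : ℝ) * θ0) < D * (Nat.log B K + 1) := by
        by_contra hcon
        push Not at hcon
        have h1 := hchar K (by omega) m (by omega) (by omega) _ hcon
        have h2 : 1 / Ac B δ F m s0 * ‖Tc B δ F m s0 ((((h : ℤ) * κκ : ℤ) : ℝ) * θ0)‖ ≤ 1 / (K : ℝ) ^ V := by
          calc 1 / Ac B δ F m s0 * ‖Tc B δ F m s0 ((((h : ℤ) * κκ : ℤ) : ℝ) * θ0)‖ ≤
              1 / Ac B δ F m s0 * (1 / (K : ℝ) ^ V * Ac B δ F m s0) := mul_le_mul_of_nonneg_left h1 (by positivity)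
            _ = _ := by field_simp
        linarith
      have hcnt := good_count B (Gd B cg) κ m ((((h : ℤ) * κκ : ℤ) : ℝ) * θ0)
      -- all the far positions are good
      have hfar : ∀ J' ⊆ Ico ℓ (ℓ + m), ((J'.filter (fun i =>
          Far κ' (fun i => a * B ^ (i - ℓ)) (fun t : ℕ => (t : ℝ) / ((B ^ (K + 1) : ℕ) : ℝ)) i t)).card : ℝ) ≤
          ((3 * D + κ : ℕ) : ℝ) * Real.log K := by
        intro J' hJ'
        have h1 : (J'.filter (fun i => Far κ' (fun i => a * B ^ (i - ℓ)) (fun t : ℕ => (t : ℝ) / ((B ^ (K + 1) : ℕ) : ℝ)) i t)).card ≤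
            ((range m).filter (fun j : ℕ => Gd B cg ((B : ℝ) ^ j * ((((h : ℤ) * κκ : ℤ) : ℝ) * θ0)))).card := by
          apply card_le_card_of_injOn (fun i => i - ℓ)
          · intro i hi
            rw [Finset.mem_coe, mem_filter] at hi
            obtain ⟨hi1, hi2⟩ := hi
            have hi3 := hJ' hi1
            rw [mem_Ico] at hi3
            rw [Finset.mem_coe, mem_filter, mem_range]
            dsimp only
            refine ⟨by omega, ?_⟩
            unfold Far at hi2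
            dsimp only at hi2
            rw [← hθ0] at hi2
            rw [hcg]
            refine gd_far B hB κ' hκ'0.le _ _ ?_ hi2
            have ea : ((a * B ^ (i - ℓ) : ℕ) : ℝ) = (B.factorial : ℝ) * |(κκ : ℝ)| * h * (B : ℝ) ^ (i - ℓ) := by
              rw [ha]
              push_cast
              rw [Nat.cast_natAbs]
              push_cast
              ring
            rw [ea]
            have e3 : (B.factorial : ℝ) * ((B : ℝ) ^ (i - ℓ) * ((((h : ℤ) * κκ : ℤ) : ℝ) * θ0)) =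
                ((B.factorial : ℝ) * h * (B : ℝ) ^ (i - ℓ)) * (κκ * θ0) := by
              push_cast; ring
            have e4 : (B.factorial : ℝ) * |(κκ : ℝ)| * h * (B : ℝ) ^ (i - ℓ) * θ0 =
                ((B.factorial : ℝ) * h * (B : ℝ) ^ (i - ℓ)) * (|(κκ : ℝ)| * θ0) := by ring
            rw [e3, e4]
            simp only [abs_mul, abs_abs]
          · intro i hi j hj hij
            rw [Finset.mem_coe, mem_filter] at hi hj
            have hi3 := hJ' hi.1
            have hj3 := hJ' hj.1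
            rw [mem_Ico] at hi3 hj3
            simp only at hij
            omega
        have h2 : (J'.filter (fun i => Far κ' (fun i => a * B ^ (i - ℓ)) (fun t : ℕ => (t : ℝ) / ((B ^ (K + 1) : ℕ) : ℝ)) i t)).card ≤
            D * (Nat.log B K + 1) + κ := by
          refine h1.trans (hcnt.trans ?_)
          omega
        have h3 : (Nat.log B K : ℝ) ≤ 2 * Real.log K := by
          have g1 : (B : ℝ) ^ (Nat.log B K) ≤ K := by exact_mod_cast Nat.pow_log_le_self B (by omega)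
          have g2 := Real.log_le_log (by positivity) g1
          rw [Real.log_pow] at g2
          have g3 : (1 : ℝ) / 2 ≤ Real.log B := by
            have := Real.log_two_gt_d9
            have := Real.log_le_log (by norm_num) hBr
            linarith
          have g4 : (0 : ℝ) ≤ (Nat.log B K : ℝ) := Nat.cast_nonneg _
          nlinarith
        have h4 : ((J'.filter (fun i => Far κ' (fun i => a * B ^ (i - ℓ)) (fun t : ℕ => (t : ℝ) / ((B ^ (K + 1) : ℕ) : ℝ)) i t)).card : ℝ) ≤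
            D * ((Nat.log B K : ℝ) + 1) + κ := by exact_mod_cast h2
        refine h4.trans ?_
        push_cast
        have hD0 : (0 : ℝ) ≤ D := Nat.cast_nonneg _
        have hk0 : (0 : ℝ) ≤ κ := Nat.cast_nonneg _
        nlinarith
      have hε1 : ∀ w : ℕ, 0 ≤ ε' * (w : ℝ) := fun w => by positivity
      constructor
      · intro w _
        have h1 := hfar ((Ico ℓ (ℓ + m)).filter (fun i => 0 ≤ i ∧ i < w)) (filter_subset _ _)
        rw [filter_filter] at h1
        have h2 : (Ico ℓ (ℓ + m)).filter (fun i => 0 ≤ i ∧ i < w ∧ Far κ' (fun i => a * B ^ (i - ℓ))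
            (fun t : ℕ => (t : ℝ) / ((B ^ (K + 1) : ℕ) : ℝ)) i t) =
            (Ico ℓ (ℓ + m)).filter (fun i => (0 ≤ i ∧ i < w) ∧ Far κ' (fun i => a * B ^ (i - ℓ))
            (fun t : ℕ => (t : ℝ) / ((B ^ (K + 1) : ℕ) : ℝ)) i t) := by
          apply filter_congr
          intro i _
          rw [and_assoc]
        rw [h2]
        have h3 := hε1 w
        linarith
      · intro w _
        have h1 := hfar ((Ico ℓ (ℓ + m)).filter (fun i => K + 1 - w ≤ i ∧ i < K + 1)) (filter_subset _ _)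
        rw [filter_filter] at h1
        have h2 : (Ico ℓ (ℓ + m)).filter (fun i => K + 1 - w ≤ i ∧ i < K + 1 ∧ Far κ' (fun i => a * B ^ (i - ℓ))
            (fun t : ℕ => (t : ℝ) / ((B ^ (K + 1) : ℕ) : ℝ)) i t) =
            (Ico ℓ (ℓ + m)).filter (fun i => (K + 1 - w ≤ i ∧ i < K + 1) ∧ Far κ' (fun i => a * B ^ (i - ℓ))
            (fun t : ℕ => (t : ℝ) / ((B ^ (K + 1) : ℕ) : ℝ)) i t) := by
          apply filter_congr
          intro i _
          rw [and_assoc]
        rw [h2]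
        have h3 := hε1 w
        linarith

end Pool.Agent.H491R3.AM
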