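import Pool.Agent.H491R3.AM2
import Pool.Agent.Y958.RM.Cor
import Pool.Agent.Y958.RM.Rnd

set_option autoImplicit false

/-! Hooley's variance conjecture for the moduli in automatic sets. -/

namespace Pool.Agent.H491R3.AM
open Finset
open Pool.Agent.W93.AU
open Pool.Agent.Y885 (TLaw)
open Pool.Agent.Y958.RM (BadQ eH eH_le)

variable {σ : Type}

open Classical in
/-- from the random accepted integers to the automatic set -/
lemma transfer (b : ℕ) (M : DFA ℕ σ) (B : ℕ) {τ : Type} (δ : τ → ℕ → τ) (F : τ → Prop) (s0 : τ) (κ : ℕ) (C ρ : ℝ) (k : ℕ)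
    (hB2 : 2 ≤ B) (hG : Gro B δ F s0 (R1 B δ) κ C ρ k)
    (hrun : ∀ m v, v < B ^ m → (F (run B δ m s0 v) ↔ Nat.digits b v ∈ M.accepts)) (N n : ℕ) (hκn : κ ≤ n)
    (hN1 : B ^ n ≤ N) (hN2 : N < B ^ (n + 1)) (hpos : 0 < Ac B δ F (n + 1) s0) (E : ℕ → Prop) :
    (((range N).filter (fun v : ℕ => Nat.digits b v ∈ M.accepts ∧ E v)).card : ℝ) ≤
        C * (((range N).filter fun v => Nat.digits b v ∈ M.accepts).card : ℝ) *
          ∑ v ∈ Om B δ F s0 (n + 1), (if E v then 1 / Ac B δ F (n + 1) s0 else 0) := by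
  have hC1 := hG.C1
  have hC0 : 0 < C := by linarith
  have h3 := hG.step n hκn s0
  have h4 : Ac B δ F n s0 ≤ (((range N).filter fun v => Nat.digits b v ∈ M.accepts).card : ℝ) := by
    have e1 : Ac B δ F n s0 = (((range (B ^ n)).filter fun v => Nat.digits b v ∈ M.accepts).card : ℝ) := by
      rw [Ac_eq B (by omega), ← sum_filter, sum_const, nsmul_eq_mul, mul_one]
      congr 2
      apply filter_congr
      intro v hv
      exact hrun n v (mem_range.1 hv)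
    rw [e1]
    exact_mod_cast card_le_card (filter_subset_filter _ (range_mono hN1))
  rw [← sum_filter, sum_const, nsmul_eq_mul]
  have h5 : ((range N).filter (fun v : ℕ => Nat.digits b v ∈ M.accepts ∧ E v)).card ≤
      ((Om B δ F s0 (n + 1)).filter E).card := by
    apply card_le_card
    intro v hv
    rw [mem_filter, mem_range] at hv
    unfold Om
    rw [mem_filter, mem_filter, mem_range]
    have hv2 : v < B ^ (n + 1) := hv.1.trans hN2
    exact ⟨⟨hv2, (hrun (n + 1) v hv2).2 hv.2.1⟩, hv.2.2⟩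
  have h6 : Ac B δ F (n + 1) s0 ≤ C * (((range N).filter fun v => Nat.digits b v ∈ M.accepts).card : ℝ) :=
    h3.trans (mul_le_mul_of_nonneg_left h4 hC0.le)
  have h7 : (((range N).filter (fun v : ℕ => Nat.digits b v ∈ M.accepts ∧ E v)).card : ℝ) ≤
      (((Om B δ F s0 (n + 1)).filter E).card : ℝ) := by exact_mod_cast h5
  obtain ⟨X, hX⟩ : ∃ X : ℝ, X = (((Om B δ F s0 (n + 1)).filter E).card : ℝ) := ⟨_, rfl⟩
  rw [← hX] at h7 ⊢
  refine h7.trans ?_
  have hX0 : 0 ≤ X := by rw [hX]; positivity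
  calc X = Ac B δ F (n + 1) s0 * (X * (1 / Ac B δ F (n + 1) s0)) := by field_simp
    _ ≤ _ := mul_le_mul_of_nonneg_right h6 (by positivity)

open Classical in
set_option maxHeartbeats 1000000 in
/-- few elements of an automatic set give a bad modulus -/
theorem aut_badq [Fintype σ] (b : ℕ) (hb : 2 ≤ b) (M : DFA ℕ σ)
    (hS : ∀ k : ℕ, ∃ᶠ N : ℕ in Filter.atTop, Real.log N ^ k < (((range N).filter fun v => Nat.digits b v ∈ M.accepts).card : ℝ))
    (μ : ℤ) (hμ : μ ≠ 0) (Bc A U : ℕ) (ε : ℝ) (hε : 0 < ε) (hε1 : ε ≤ 1) : ∃ B e₀ N₀ : ℕ, 2 ≤ B ∧ 2 * Bc + μ.natAbs + 1 ≤ B ^ e₀ ∧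
    ∀ N : ℕ, N₀ ≤ N → ∀ cc : ℤ, |cc| ≤ Bc * N →
    (((range N).filter (fun v : ℕ => Nat.digits b v ∈ M.accepts ∧ BadQ ε A (Nat.log B N + 1 + e₀) B (cc + μ * v))).card : ℝ) ≤
      (((range N).filter fun v => Nat.digits b v ∈ M.accepts).card : ℝ) / Real.log N ^ U := by
  obtain ⟨B, δ, F, s0, κ, C, ρ, k, hB2, hρ, hG, hrun⟩ := setup b hb M hS
  have hC1 := hG.C1
  have hC0 : 0 < C := by linarith
  have hB1 : (1 : ℝ) < B := by exact_mod_cast (by omega : 1 < B)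
  have hlogB : 0 < Real.log B := Real.log_pos hB1
  obtain ⟨e₁, he₁⟩ : ∃ e₁, e₁ = B.factorial * μ.natAbs * B + 2 * Bc + μ.natAbs + 1 := ⟨_, rfl⟩
  have hpe : e₁ < B ^ (2 * e₁) := lt_of_lt_of_le (Nat.lt_pow_self (by omega)) (Nat.pow_le_pow_right (by omega) (by omega))
  have hfac : B.factorial * μ.natAbs * B ≤ B ^ (2 * e₁) := by
    have : B.factorial * μ.natAbs * B ≤ e₁ := by omega
    omega
  have hbc : 2 * Bc + μ.natAbs + 1 ≤ B ^ (2 * e₁) := by omega
  obtain ⟨V, hV⟩ := Pool.Agent.Y958.RM.main Pool.Agent.Y958.RM.cor A (U + 1) B 15 hB2 (by norm_num)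
  obtain ⟨H, hH⟩ : ∃ H, H = 2 * (A + 1) := ⟨_, rfl⟩
  rw [← hH] at hV
  obtain ⟨c, m₀, h1⟩ := aut_tlaw B hB2 δ F s0 (R1 B δ) κ C ρ k hG hρ (fun s hs => hs) μ hμ 15 le_rfl (4 * H + 2 * e₁ + 2) V
  obtain ⟨k2, h2⟩ := hV ε hε hε1 c
  obtain ⟨k3, h3⟩ := eH_le B e₁ H hB2
  obtain ⟨R, hR⟩ := exists_nat_ge (C * Real.log B ^ U)
  refine ⟨B, 2 * e₁, B ^ (m₀ + k2 + k3 + κ + R + 3), hB2, hbc, fun N hN cc hcc => ?_⟩
  obtain ⟨n, hn⟩ : ∃ n, n = Nat.log B N := ⟨_, rfl⟩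
  rw [← hn]
  have hpB : 0 < B ^ (m₀ + k2 + k3 + κ + R + 3) := by positivity
  have hn1 : m₀ + k2 + k3 + κ + R + 3 ≤ n := by
    rw [hn]
    exact (Nat.le_log_iff_pow_le (by omega) (by omega)).2 hN
  have hN1 : B ^ n ≤ N := by rw [hn]; exact Nat.pow_log_le_self B (by omega)
  have hN2 : N < B ^ (n + 1) := by rw [hn]; exact Nat.lt_pow_succ_log_self (by omega) N
  have hρ0 : 0 < ρ := by linarith
  have hpos : 0 < Ac B δ F (n + 1) s0 := by
    have h1 := hG.low (n + 1) (by omega)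
    have h2 : 0 < ρ ^ (n + 1) := by positivity
    by_contra hcon
    push Not at hcon
    have h3 : C * Ac B δ F (n + 1) s0 ≤ 0 := mul_nonpos_of_nonneg_of_nonpos (by linarith) hcon
    linarith
  obtain ⟨kk, hkk⟩ : ∃ kk, kk = n + 1 + 2 * e₁ := ⟨_, rfl⟩
  rw [← hkk]
  have key := h2 kk (by omega) ℕ (Om B δ F s0 (n + 1)) (fun _ => 1 / Ac B δ F (n + 1) s0) (fun v : ℕ => cc + μ * v)
    (sum_om B hB2 δ F s0 (n + 1) hpos) (by
      intro h hh1 hh2
      have he : kk + eH B H kk = (n + 1) + (2 * e₁ + eH B H (n + 1 + 2 * e₁)) := by rw [hkk]; ring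
      rw [he]
      refine h1 (n + 1) (by omega) _ (h3 (n + 1) (by omega)) h hh1 ?_ cc hpos
      rw [← hkk]
      have g1 : h < B ^ (Nat.log B h + 1) := Nat.lt_pow_succ_log_self (by omega) h
      have g2 : B ^ (Nat.log B h + 1) ≤ B ^ (eH B H kk + 1) := Nat.pow_le_pow_right (by omega) (by omega)
      have g3 : B.factorial * μ.natAbs * h * B ≤ B ^ (2 * e₁) * h := by
        calc B.factorial * μ.natAbs * h * B = B.factorial * μ.natAbs * B * h := by ring
          _ ≤ _ := Nat.mul_le_mul_right _ hfac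
      have g4 : B ^ (2 * e₁) * h < B ^ (2 * e₁) * B ^ (eH B H kk + 1) :=
        Nat.mul_lt_mul_of_pos_left (lt_of_lt_of_le g1 g2) (by positivity)
      have g5 : B.factorial * μ.natAbs * h * B < B ^ (2 * e₁ + eH B H kk) * B := by
        calc B.factorial * μ.natAbs * h * B < B ^ (2 * e₁) * B ^ (eH B H kk + 1) := lt_of_le_of_lt g3 g4
          _ = _ := by rw [pow_succ, pow_add, mul_assoc]
      have g6 : B.factorial * μ.natAbs * h < B ^ (2 * e₁ + eH B H kk) := lt_of_mul_lt_mul_right g5 (Nat.zero_le _)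
      have g7 : B.factorial * μ.natAbs * h ≠ 0 := by
        have := Nat.mul_pos (Nat.mul_pos B.factorial_pos (Int.natAbs_pos.2 hμ)) hh1
        omega
      exact (Nat.log_lt_of_lt_pow g7 g6).le) (by
      intro v hv
      unfold Om at hv
      rw [mem_filter, mem_range] at hv
      have g1 : |cc + μ * (v : ℤ)| ≤ |cc| + |μ * (v : ℤ)| := abs_add_le _ _
      have g2 : |μ * (v : ℤ)| ≤ (μ.natAbs : ℤ) * ((B ^ (n + 1) : ℕ) : ℤ) := by
        rw [abs_mul, Int.abs_eq_natAbs μ, abs_of_nonneg (by positivity : (0 : ℤ) ≤ (v : ℤ))]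
        exact mul_le_mul_of_nonneg_left (by exact_mod_cast hv.1.le) (by positivity)
      have g3 : (Bc : ℤ) * N ≤ (Bc : ℤ) * ((B ^ (n + 1) : ℕ) : ℤ) := mul_le_mul_of_nonneg_left (by exact_mod_cast hN2.le) (by positivity)
      have g4 : ((2 * Bc + μ.natAbs + 1 : ℕ) : ℤ) * ((B ^ (n + 1) : ℕ) : ℤ) ≤ ((B ^ kk : ℕ) : ℤ) := by
        have : (2 * Bc + μ.natAbs + 1) * B ^ (n + 1) ≤ B ^ kk := by
          rw [hkk, pow_add B (n + 1) (2 * e₁), mul_comm (B ^ (n + 1))]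
          exact Nat.mul_le_mul_right _ hbc
        exact_mod_cast this
      have g5 : (0 : ℤ) ≤ ((B ^ (n + 1) : ℕ) : ℤ) := by positivity
      have g6 : (0 : ℤ) ≤ (Bc : ℤ) * ((B ^ (n + 1) : ℕ) : ℤ) := by positivity
      have g7 : ((2 * Bc + μ.natAbs + 1 : ℕ) : ℤ) * ((B ^ (n + 1) : ℕ) : ℤ) =
        2 * ((Bc : ℤ) * ((B ^ (n + 1) : ℕ) : ℤ)) + (μ.natAbs : ℤ) * ((B ^ (n + 1) : ℕ) : ℤ) + ((B ^ (n + 1) : ℕ) : ℤ) := by
        push_cast; ring
      have g8 : ((B ^ kk : ℕ) : ℤ) = (B : ℤ) ^ kk := by push_cast; ring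
      rw [g7, g8] at g4
      linarith)
    (fun v => BadQ ε A kk B (cc + μ * v)) (fun _ => Classical.propDecidable _) (by
      intro v _ hv
      obtain ⟨g1, x, g2, g3, g4⟩ := hv
      exact ⟨g1, x, g2, g3, g4⟩)
  have htr := transfer b M B δ F s0 κ C ρ k hB2 hG hrun N n (by omega) hN1 hN2 hpos (fun v => BadQ ε A kk B (cc + μ * v))
  refine htr.trans ?_
  obtain ⟨S, hSd⟩ : ∃ S : ℝ, S = (((range N).filter fun v => Nat.digits b v ∈ M.accepts).card : ℝ) := ⟨_, rfl⟩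
  rw [← hSd]
  have hS0 : 0 ≤ S := by rw [hSd]; positivity
  have hkey2 : ∑ v ∈ Om B δ F s0 (n + 1), (if BadQ ε A kk B (cc + μ * v) then 1 / Ac B δ F (n + 1) s0 else 0) ≤ 1 / (kk : ℝ) ^ (U + 1) := by
    refine le_trans (le_of_eq ?_) key
    apply sum_congr rfl
    intro v _
    congr
  have hkk0 : (0 : ℝ) < kk := by exact_mod_cast (by omega : 0 < kk)
  have hlogN : Real.log N ≤ kk * Real.log B := by
    have e1 : (N : ℝ) ≤ (B : ℝ) ^ kk := by
      have : N ≤ B ^ kk := hN2.le.trans (Nat.pow_le_pow_right (by omega) (by omega))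
      exact_mod_cast this
    have hBn : 0 < B ^ n := by positivity
    have hN0 : (0 : ℝ) < N := by exact_mod_cast (by omega : 0 < N)
    have e2 := Real.log_le_log hN0 e1
    rwa [Real.log_pow] at e2
  have hlogN0 : 0 < Real.log N := by
    apply Real.log_pos
    have : 1 < B ^ n := Nat.one_lt_pow (by omega) (by omega)
    exact_mod_cast (by omega : 1 < N)
  have h5 : C * (1 / (kk : ℝ) ^ (U + 1)) ≤ 1 / Real.log N ^ U := by
    have e1 : Real.log N ^ U ≤ (kk : ℝ) ^ U * Real.log B ^ U := by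
      rw [← mul_pow]
      exact pow_le_pow_left₀ hlogN0.le hlogN U
    have e2 : C * Real.log B ^ U ≤ kk := hR.trans (by exact_mod_cast (by omega : R ≤ kk))
    rw [mul_one_div, div_le_div_iff₀ (by positivity) (by positivity), one_mul]
    calc C * Real.log N ^ U ≤ C * ((kk : ℝ) ^ U * Real.log B ^ U) := mul_le_mul_of_nonneg_left e1 hC0.le
      _ = (kk : ℝ) ^ U * (C * Real.log B ^ U) := by ring
      _ ≤ (kk : ℝ) ^ U * kk := mul_le_mul_of_nonneg_left e2 (by positivity)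
      _ = _ := by rw [pow_succ]
  calc C * S * ∑ v ∈ Om B δ F s0 (n + 1), (if BadQ ε A kk B (cc + μ * v) then 1 / Ac B δ F (n + 1) s0 else 0) ≤
      C * S * (1 / (kk : ℝ) ^ (U + 1)) := mul_le_mul_of_nonneg_left hkey2 (by positivity)
    _ = S * (C * (1 / (kk : ℝ) ^ (U + 1))) := by ring
    _ ≤ S * (1 / Real.log N ^ U) := mul_le_mul_of_nonneg_left h5 hS0
    _ = _ := by rw [mul_one_div]

end Pool.Agent.H491R3.AM
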